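import Pool.Agent.H.MP_374efc_lc.Base

/-!
# MP_374efc_lc: the computability shell

If `F` is a computable function with `Bound F` (a locally catenative system of size at most `s` satisfies
a relation at level at most `F s`) then the set of locally catenative D0L systems is computable
(`shell`, in the form of frozen statement S14575).
-/

namespace D0L

/-- The morphism given by a list of letter images. -/
def hs (s : List (List ℕ) × List ℕ) (a : ℕ) : List ℕ := s.1.getD a []

/-- The sequence of the system. -/
def sqn (s : List (List ℕ) × List ℕ) (n : ℕ) : List ℕ := it (hs s) n s.2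

/-- Lists with entries below `p` of length between `1` and `k + 1`. -/
def cand (p : ℕ) : ℕ → List (List ℕ)
  | 0 => (List.range p).map (fun j => [j])
  | k + 1 => cand p k ++ (cand p k).flatMap (fun l => (List.range p).map (fun j => j :: l))

theorem mem_cand {p k : ℕ} {l : List ℕ} :
    l ∈ cand p k ↔ l ≠ [] ∧ l.length ≤ k + 1 ∧ ∀ j ∈ l, j < p := by
  induction k generalizing l with
  | zero =>
    simp only [cand, List.mem_map, List.mem_range]
    constructor
    · rintro ⟨j, hj, rfl⟩
      simpa using hj
    · rintro ⟨h1, h2, h3⟩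
      match l, h1, h2, h3 with
      | [j], _, _, h3 => exact ⟨j, h3 j (by simp), rfl⟩
  | succ k ih =>
    simp only [cand, List.mem_append, List.mem_flatMap, List.mem_map, List.mem_range]
    constructor
    · rintro (h | ⟨l', hl', j, hj, rfl⟩)
      · obtain ⟨h1, h2, h3⟩ := ih.1 h
        exact ⟨h1, by omega, h3⟩
      · obtain ⟨h1, h2, h3⟩ := ih.1 hl'
        refine ⟨by simp, by simpa using h2, ?_⟩
        intro i hi
        rcases List.mem_cons.1 hi with rfl | hi
        · exact hj
        · exact h3 i hi
    · rintro ⟨h1, h2, h3⟩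
      match l, h1, h2, h3 with
      | [j], _, _, h3 => exact Or.inl (ih.2 ⟨by simp, by simp, h3⟩)
      | j :: i :: l, _, h2, h3 =>
        refine Or.inr ⟨i :: l, ih.2 ⟨by simp, by simpa using h2, ?_⟩, j, h3 j (by simp), rfl⟩
        intro x hx
        exact h3 x (List.mem_cons_of_mem _ hx)

/-- Empty words in a product can be dropped. -/
theorem drop_empty {α : Type*} (f : ℕ → List α) (js : List ℕ) :
    ((js.filter (fun j => !(f j).isEmpty)).map f).flatten = (js.map f).flatten ∧
    (js.filter (fun j => !(f j).isEmpty)).length ≤ (js.map f).flatten.length := by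
  induction js with
  | nil => simp
  | cons j js ih =>
    rcases h : f j with _ | ⟨a, u⟩
    · simpa [h] using ih
    · simp only [List.filter_cons, h, List.isEmpty_cons, Bool.not_false, if_true, List.map_cons,
        List.flatten_cons, ih.1, List.length_cons, List.length_append, true_and]
      omega

theorem rel_iff_cand (s : List (List ℕ) × List ℕ) (p : ℕ) :
    Rel (hs s) s.2 p ↔
      ∃ js ∈ cand p (sqn s p).length, (js.map (sqn s)).flatten = sqn s p := by
  constructor
  · rintro ⟨js, h1, h2, h3⟩
    obtain ⟨h4, h5⟩ := drop_empty (sqn s) js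
    have h6 : (js.map (sqn s)).flatten = sqn s p := h3.symm
    by_cases hne : js.filter (fun j => !(sqn s j).isEmpty) = []
    · rw [hne] at h4
      simp only [List.map_nil, List.flatten_nil] at h4
      match js, h1, h2, h3, h4, hne with
      | j :: js, _, h2, h3, h4, hne =>
        refine ⟨[j], mem_cand.2 ⟨by simp, by simp, ?_⟩, ?_⟩
        · intro i hi
          rw [List.mem_singleton] at hi
          rw [hi]
          exact h2 j (by simp)
        · rw [List.map_cons, List.flatten_cons] at h4 h6
          have h7 := List.append_eq_nil_iff.1 h4.symm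
          rw [h7.1, h7.2] at h6
          simp [h7.1, ← h6]
    · refine ⟨_, mem_cand.2 ⟨hne, ?_, ?_⟩, h4.trans h6⟩
      · rw [h6] at h5
        omega
      · intro j hj
        exact h2 j (List.mem_filter.1 hj).1
  · rintro ⟨js, h1, h2⟩
    obtain ⟨h3, _, h5⟩ := mem_cand.1 h1
    exact ⟨js, h3, h5, h2.symm⟩

section prim

open Primrec

theorem prim_hs : Primrec₂ hs :=
  (list_getD []).comp₂ (fst.comp fst).to₂ snd.to₂

theorem prim_app : Primrec₂ (fun (s : List (List ℕ) × List ℕ) (w : List ℕ) => app (hs s) w) := by
  refine list_flatMap (f := fun x : (List (List ℕ) × List ℕ) × List ℕ => x.2)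
    (g := fun x a => hs x.1 a) snd ?_
  exact prim_hs.comp₂ (fst.comp fst).to₂ snd.to₂

theorem prim_sqn : Primrec₂ sqn := by
  refine nat_iterate (f := fun x : (List (List ℕ) × List ℕ) × ℕ => x.2) (g := fun x => x.1.2)
    (h := fun x w => app (hs x.1) w) snd (snd.comp fst) ?_
  exact prim_app.comp₂ (fst.comp fst).to₂ snd.to₂

theorem cand_eq (p k : ℕ) : cand p k = Nat.rec (motive := fun _ => List (List ℕ))
    ((List.range p).map (fun j => [j]))
    (fun _ L => L ++ L.flatMap (fun l => (List.range p).map (fun j => j :: l))) k := by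
  induction k with
  | zero => rfl
  | succ k ih => rw [cand, ih]

theorem prim_cand : Primrec₂ cand := by
  have h : Primrec₂ (fun (p k : ℕ) => (Nat.rec (motive := fun _ => List (List ℕ))
      ((List.range p).map (fun j => [j]))
      (fun _ L => L ++ L.flatMap (fun l => (List.range p).map (fun j => j :: l))) k :
        List (List ℕ))) := by
    refine nat_rec (f := fun p : ℕ => (List.range p).map (fun j => [j]))
      (g := fun (p : ℕ) (x : ℕ × List (List ℕ)) =>
        x.2 ++ x.2.flatMap (fun l => (List.range p).map (fun j => j :: l))) ?_ ?_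
    · refine list_map list_range ?_
      exact list_cons.comp₂ snd.to₂ (const []).to₂
    · refine list_append.comp₂ (snd.comp snd).to₂ ?_
      refine (list_flatMap (f := fun x : ℕ × (ℕ × List (List ℕ)) => x.2.2)
        (g := fun x l => (List.range x.1).map (fun j => j :: l)) (snd.comp snd) ?_).to₂
      refine (list_map (f := fun x : (ℕ × (ℕ × List (List ℕ))) × List ℕ => List.range x.1.1)
        (g := fun x j => j :: x.2) (list_range.comp (fst.comp fst)) ?_).to₂
      exact list_cons.comp₂ snd.to₂ (snd.comp fst).to₂
  exact h.of_eq (fun p k => (cand_eq p k).symm)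

theorem prim_rel : PrimrecRel (fun (s : List (List ℕ) × List ℕ) (p : ℕ) => Rel (hs s) s.2 p) := by
  have h1 : PrimrecRel (fun (js : List ℕ) (x : (List (List ℕ) × List ℕ) × ℕ) =>
      (js.map (sqn x.1)).flatten = sqn x.1 x.2) := by
    refine Primrec.eq.comp₂ ?_ ?_
    · refine (list_flatten.comp (list_map
        (f := fun y : List ℕ × ((List (List ℕ) × List ℕ) × ℕ) => y.1)
        (g := fun y j => sqn y.2.1 j) fst ?_)).to₂
      exact prim_sqn.comp₂ ((fst.comp snd).comp fst).to₂ snd.to₂
    · exact (prim_sqn.comp (fst.comp snd) (snd.comp snd)).to₂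
  have h2 := h1.exists_mem_list
  have h3 : PrimrecPred (fun x : (List (List ℕ) × List ℕ) × ℕ =>
      ∃ js ∈ cand x.2 (sqn x.1 x.2).length, (js.map (sqn x.1)).flatten = sqn x.1 x.2) := by
    refine h2.comp (f := fun x : (List (List ℕ) × List ℕ) × ℕ =>
      cand x.2 (sqn x.1 x.2).length) (g := fun x => x) ?_ .id
    exact prim_cand.comp snd (list_length.comp prim_sqn)
  exact h3.of_eq (fun x => (rel_iff_cand x.1 x.2).symm)

end prim

/-- A bound for the number of letters. -/
def nl (s : List (List ℕ) × List ℕ) : ℕ := s.1.length + s.1.flatten.sum + s.2.sum + 1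

/-- The size of a system. -/
def sz (s : List (List ℕ) × List ℕ) : ℕ := nl s + s.1.flatten.length + s.2.length

theorem prim_sum : Primrec (fun l : List ℕ => l.sum) := by
  have h : Primrec (fun l : List ℕ => l.foldr (fun a b => a + b) 0) := by
    refine Primrec.list_foldr (f := fun l : List ℕ => l) (g := fun _ => 0)
      (h := fun _ x => x.1 + x.2) .id (.const 0) ?_
    exact (Primrec.nat_add.comp (Primrec.fst.comp Primrec.snd)
      (Primrec.snd.comp Primrec.snd)).to₂
  exact h.of_eq (fun l => by rw [List.sum])

theorem prim_sz : Primrec sz := by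
  have h1 : Primrec (fun s : List (List ℕ) × List ℕ => s.1.flatten) :=
    Primrec.list_flatten.comp Primrec.fst
  have h2 : Primrec nl := by
    refine Primrec.succ.comp ?_
    exact Primrec.nat_add.comp (Primrec.nat_add.comp (Primrec.list_length.comp Primrec.fst)
      (prim_sum.comp h1)) (prim_sum.comp Primrec.snd)
  exact Primrec.nat_add.comp (Primrec.nat_add.comp h2 (Primrec.list_length.comp h1))
    (Primrec.list_length.comp Primrec.snd)

theorem hs_lt {s : List (List ℕ) × List ℕ} {a b : ℕ} (hb : b ∈ hs s a) : b < nl s := by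
  unfold hs at hb
  by_cases ha : a < s.1.length
  · rw [List.getD_eq_getElem _ _ ha] at hb
    have h1 : b ∈ s.1.flatten := List.mem_flatten.2 ⟨_, List.getElem_mem ha, hb⟩
    have h2 := List.single_le_sum (fun x _ => Nat.zero_le x) b h1
    unfold nl
    omega
  · rw [List.getD_eq_default _ _ (by omega)] at hb
    simp at hb

theorem hs_len (s : List (List ℕ) × List ℕ) (a : ℕ) : (hs s a).length ≤ s.1.flatten.length := by
  unfold hs
  by_cases ha : a < s.1.length
  · rw [List.getD_eq_getElem _ _ ha]
    exact (List.sublist_flatten_of_mem (List.getElem_mem ha)).length_le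
  · rw [List.getD_eq_default _ _ (by omega)]
    simp

theorem ax_lt {s : List (List ℕ) × List ℕ} {b : ℕ} (hb : b ∈ s.2) : b < nl s := by
  have h2 := List.single_le_sum (fun x _ => Nat.zero_le x) b hb
  unfold nl
  omega

/-- The morphism over the finite alphabet `Fin (nl s)`. -/
def hf (s : List (List ℕ) × List ℕ) (a : Fin (nl s)) : List (Fin (nl s)) :=
  (hs s a).pmap (fun b hb => ⟨b, hb⟩) (fun _ hb => hs_lt hb)

/-- The axiom over the finite alphabet `Fin (nl s)`. -/
def wf (s : List (List ℕ) × List ℕ) : List (Fin (nl s)) :=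
  s.2.pmap (fun b hb => ⟨b, hb⟩) (fun _ hb => ax_lt hb)

theorem hf_val (s : List (List ℕ) × List ℕ) (a : Fin (nl s)) :
    (hf s a).map Fin.val = hs s a := by
  unfold hf
  rw [List.map_pmap]
  simp

theorem wf_val (s : List (List ℕ) × List ℕ) : (wf s).map Fin.val = s.2 := by
  unfold wf
  rw [List.map_pmap]
  simp

theorem app_val (s : List (List ℕ) × List ℕ) (w : List (Fin (nl s))) :
    (app (hf s) w).map Fin.val = app (hs s) (w.map Fin.val) := by
  induction w with
  | nil => rfl
  | cons a w ih => rw [app_cons, List.map_append, ih, hf_val, List.map_cons, app_cons]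

theorem it_val (s : List (List ℕ) × List ℕ) (n : ℕ) :
    (it (hf s) n (wf s)).map Fin.val = sqn s n := by
  induction n with
  | zero => exact wf_val s
  | succ n ih =>
    rw [it_succ, app_val, ih]
    unfold sqn
    rw [it_succ]

theorem rel_val (s : List (List ℕ) × List ℕ) (p : ℕ) :
    Rel (hf s) (wf s) p ↔ Rel (hs s) s.2 p := by
  have key : ∀ js : List ℕ, ((js.map (fun j => it (hf s) j (wf s))).flatten).map Fin.val =
      (js.map (fun j => it (hs s) j s.2)).flatten := by
    intro js
    rw [List.map_flatten, List.map_map]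
    congr 1
    apply List.map_congr_left
    intro j _
    exact it_val s j
  constructor
  · rintro ⟨js, h1, h2, h3⟩
    refine ⟨js, h1, h2, ?_⟩
    rw [← key, ← h3]
    exact (it_val s p).symm
  · rintro ⟨js, h1, h2, h3⟩
    refine ⟨js, h1, h2, ?_⟩
    apply List.map_injective_iff.2 Fin.val_injective
    rw [key, ← h3]
    exact it_val s p

theorem sz_ok (s : List (List ℕ) × List ℕ) : Sz (sz s) (hf s) (wf s) := by
  refine ⟨?_, ?_, ?_⟩
  · rw [Fintype.card_fin]
    unfold sz
    omega
  · intro a
    have h1 := hs_len s a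
    have h2 : (hf s a).length = (hs s a).length := by
      rw [← hf_val, List.length_map]
    unfold sz
    omega
  · have h2 : (wf s).length = s.2.length := by
      conv_rhs => rw [← wf_val, List.length_map]
    unfold sz
    omega

/-- The property of frozen statement S14575. -/
def FP (s : List (List ℕ) × List ℕ) : Prop :=
  ∃ is : List ℕ, is ≠ [] ∧ (∀ i ∈ is, 0 < i) ∧ ∃ p : ℕ, (∀ i ∈ is, i ≤ p) ∧
    ∀ n : ℕ, p ≤ n →
      (fun w : List ℕ => w.flatMap (fun a => s.1.getD a []))^[n] s.2 =
        (is.map (fun i =>
          (fun w : List ℕ => w.flatMap (fun a => s.1.getD a []))^[n - i] s.2)).flatten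

theorem fp_iff (s : List (List ℕ) × List ℕ) : FP s ↔ ∃ p, Rel (hs s) s.2 p := by
  have e : ∀ n, (fun w : List ℕ => w.flatMap (fun a => s.1.getD a []))^[n] s.2 =
      it (hs s) n s.2 := fun n => rfl
  unfold FP
  simp only [e]
  constructor
  · rintro ⟨is, h1, h2, p, h3, h4⟩
    refine ⟨p, is.map (fun i => p - i), by simpa using h1, ?_, ?_⟩
    · intro j hj
      obtain ⟨i, hi, rfl⟩ := List.mem_map.1 hj
      have := h2 i hi
      have := h3 i hi
      omega
    · rw [h4 p le_rfl, List.map_map]
      rfl
  · rintro ⟨p, js, h1, h2, h3⟩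
    refine ⟨js.map (fun j => p - j), by simpa using h1, ?_, p, ?_, ?_⟩
    · intro i hi
      obtain ⟨j, hj, rfl⟩ := List.mem_map.1 hi
      have := h2 j hj
      omega
    · intro i hi
      obtain ⟨j, hj, rfl⟩ := List.mem_map.1 hi
      omega
    · intro n hn
      obtain ⟨m, rfl⟩ := Nat.exists_eq_add_of_le hn
      rw [rel_shift h3 m, List.map_map]
      congr 1
      apply List.map_congr_left
      intro j hj
      have := h2 j hj
      simp only [Function.comp]
      rw [show p + m - (p - j) = j + m by omega]

/-- The shell: a computable bound gives decidability. -/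
theorem shell {F : ℕ → ℕ} (hF : Computable F) (hB : Bound F) : ComputablePred FP := by
  have h1 : ∀ s, FP s ↔ Rel (hs s) s.2 (F (sz s)) := by
    intro s
    rw [fp_iff]
    constructor
    · rintro ⟨p, hp⟩
      obtain ⟨q, hq, hq1⟩ := hB (Fin (nl s)) (hf s) (wf s) (sz s) (sz_ok s)
        ⟨p, (rel_val s p).2 hp⟩
      exact ((rel_val s q).1 hq1).mono hq
    · intro h
      exact ⟨_, h⟩
  obtain ⟨hd, h2⟩ := prim_rel
  refine ComputablePred.of_eq (p := fun s => Rel (hs s) s.2 (F (sz s))) ?_ (fun s => (h1 s).symm)
  refine ⟨fun s => hd (s, F (sz s)), ?_⟩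
  exact h2.to_comp.comp (Computable.id.pair (hF.comp prim_sz.to_comp))

/-- Local catenativity is recursively enumerable. -/
theorem lc_re : REPred FP := by
  obtain ⟨hd, h2⟩ := prim_rel
  set b : (List (List ℕ) × List ℕ) → ℕ → Bool := fun s p =>
    @decide ((fun x : (List (List ℕ) × List ℕ) × ℕ => Rel (hs x.1) x.1.2 x.2) (s, p)) (hd (s, p))
    with hb
  have hb1 : ∀ s p, b s p = true ↔ Rel (hs s) s.2 p := fun s p =>
    @decide_eq_true_iff _ (hd (s, p))
  have h3 : Partrec (fun s : List (List ℕ) × List ℕ =>
      Nat.rfind (fun p => (Part.some (b s p) : Part Bool))) := by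
    refine Partrec.rfind (p := fun s p => (Part.some (b s p) : Part Bool)) ?_
    exact (Computable.partrec h2.to_comp).to₂
  refine REPred.of_eq h3.dom_re (fun s => ?_)
  rw [fp_iff, Nat.rfind_dom]
  constructor
  · rintro ⟨p, hp, _⟩
    exact ⟨p, (hb1 s p).1 (by simpa using hp)⟩
  · rintro ⟨p, hp⟩
    exact ⟨p, by simpa using (hb1 s p).2 hp, fun {m} _ => trivial⟩

/-- The shell with certificates: it is enough that the complement is recursively enumerable. -/
theorem shell_re (h : REPred (fun s => ¬ FP s)) : ComputablePred FP :=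
  ComputablePred.computable_iff_re_compl_re'.2 ⟨lc_re, h⟩

end D0L
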