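import Mathlib

/-!
# MP_374efc_lc: D0L systems, basic definitions

`app h w` is the image of the word `w` under the morphism with letter images `h`, `it h n w = h^n(w)`,
`Rel h w p` says that `h^p(w)` is a product of earlier words, `LC h w` that this happens for some `p`.
-/

namespace D0L

variable {α β γ : Type*}

/-- The morphism of free monoids with letter images `h`. -/
def app (h : α → List β) (w : List α) : List β := w.flatMap h

/-- `it h n w = h^n(w)`. -/
def it (h : α → List α) (n : ℕ) (w : List α) : List α := (app h)^[n] w

/-- The word `h^p(w)` is a nonempty product of words `h^j(w)`, `j < p`. -/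
def Rel (h : α → List α) (w : List α) (p : ℕ) : Prop :=
  ∃ js : List ℕ, js ≠ [] ∧ (∀ j ∈ js, j < p) ∧ it h p w = (js.map (fun j => it h j w)).flatten

/-- The system is locally catenative. -/
def LC (h : α → List α) (w : List α) : Prop := ∃ p, Rel h w p

theorem app_nil (h : α → List β) : app h [] = [] := rfl

theorem app_cons (h : α → List β) (a : α) (w : List α) : app h (a :: w) = h a ++ app h w := rfl

theorem app_singleton (h : α → List β) (a : α) : app h [a] = h a := by
  simp [app]

theorem app_append (h : α → List β) (u v : List α) : app h (u ++ v) = app h u ++ app h v := by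
  simp [app]

theorem app_flatten (h : α → List β) (L : List (List α)) :
    app h L.flatten = (L.map (app h)).flatten := by
  induction L with
  | nil => rfl
  | cons x t ih => simp [app_append, ih]

theorem app_app (g : β → List γ) (f : α → List β) (w : List α) :
    app g (app f w) = app (fun a => app g (f a)) w := by
  induction w with
  | nil => rfl
  | cons a w ih => rw [app_cons, app_append, ih, app_cons]

theorem mem_app {h : α → List β} {w : List α} {b : β} : b ∈ app h w ↔ ∃ a ∈ w, b ∈ h a := by
  simp [app]

theorem length_app_le {h : α → List β} {m : ℕ} (hm : ∀ a, (h a).length ≤ m) (w : List α) :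
    (app h w).length ≤ m * w.length := by
  induction w with
  | nil => simp [app_nil]
  | cons a w ih =>
    rw [app_cons, List.length_append, List.length_cons]
    have := hm a
    nlinarith

theorem length_le_app {h : α → List β} (hn : ∀ a, h a ≠ []) (w : List α) :
    w.length ≤ (app h w).length := by
  induction w with
  | nil => simp
  | cons a w ih =>
    rw [app_cons, List.length_append, List.length_cons]
    have := List.length_pos_of_ne_nil (hn a)
    omega

theorem it_zero (h : α → List α) (w : List α) : it h 0 w = w := rfl

theorem it_one (h : α → List α) (w : List α) : it h 1 w = app h w := rfl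

theorem it_succ (h : α → List α) (n : ℕ) (w : List α) : it h (n + 1) w = app h (it h n w) :=
  Function.iterate_succ_apply' _ _ _

theorem it_succ' (h : α → List α) (n : ℕ) (w : List α) : it h (n + 1) w = it h n (app h w) :=
  Function.iterate_succ_apply _ _ _

theorem it_add (h : α → List α) (m n : ℕ) (w : List α) : it h (m + n) w = it h m (it h n w) :=
  Function.iterate_add_apply _ _ _ _

theorem it_nil (h : α → List α) (n : ℕ) : it h n [] = [] := by
  induction n with
  | zero => rfl
  | succ n ih => rw [it_succ, ih, app_nil]

theorem it_append (h : α → List α) (n : ℕ) (u v : List α) :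
    it h n (u ++ v) = it h n u ++ it h n v := by
  induction n with
  | zero => rfl
  | succ n ih => rw [it_succ, it_succ, it_succ, ih, app_append]

theorem it_flatten (h : α → List α) (n : ℕ) (L : List (List α)) :
    it h n L.flatten = (L.map (it h n)).flatten := by
  induction L with
  | nil => exact it_nil h n
  | cons x t ih => simp [it_append, ih]

theorem it_eq_app (h : α → List α) (n : ℕ) (w : List α) :
    it h n w = app (fun a => it h n [a]) w := by
  induction w with
  | nil => exact it_nil h n
  | cons a w ih =>
    rw [app_cons, ← ih, ← it_append]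
    rfl

theorem length_it_le {h : α → List α} {m : ℕ} (hm : ∀ a, (h a).length ≤ m) (n : ℕ) (w : List α) :
    (it h n w).length ≤ m ^ n * w.length := by
  induction n with
  | zero => simp [it_zero]
  | succ n ih =>
    rw [it_succ]
    refine (length_app_le hm _).trans ?_
    rw [pow_succ]
    calc m * (it h n w).length ≤ m * (m ^ n * w.length) := Nat.mul_le_mul_left _ ih
      _ = m ^ n * m * w.length := by ring

theorem Rel.succ {h : α → List α} {w : List α} {p : ℕ} (hp : Rel h w p) : Rel h w (p + 1) := by
  obtain ⟨js, h1, h2, h3⟩ := hp
  refine ⟨js.map (· + 1), by simpa using h1, ?_, ?_⟩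
  · intro j hj
    rw [List.mem_map] at hj
    obtain ⟨i, hi, rfl⟩ := hj
    have := h2 i hi
    omega
  · rw [it_succ, h3, app_flatten, List.map_map, List.map_map]
    congr 1
    apply List.map_congr_left
    intro j _
    simp only [Function.comp]
    rw [it_succ]

theorem Rel.mono {h : α → List α} {w : List α} {p q : ℕ} (hp : Rel h w p) (hq : p ≤ q) :
    Rel h w q := by
  induction q, hq using Nat.le_induction with
  | base => exact hp
  | succ q _ ih => exact ih.succ

/-- Shifted relation: the gap form.  If `h^p(w)` is the product of the `h^j(w)`, `j ∈ js`, then for all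
`m` the word `h^(p+m)(w)` is the product of the `h^(j+m)(w)`. -/
theorem rel_shift {h : α → List α} {w : List α} {p : ℕ} {js : List ℕ}
    (hp : it h p w = (js.map (fun j => it h j w)).flatten) (m : ℕ) :
    it h (p + m) w = (js.map (fun j => it h (j + m) w)).flatten := by
  rw [Nat.add_comm p m, it_add, hp, it_flatten, List.map_map]
  congr 1
  apply List.map_congr_left
  intro j _
  simp only [Function.comp]
  rw [Nat.add_comm j m, it_add]

/-- Replacing `w` by `h^q(w)`. -/
theorem LC.shift {h : α → List α} {w : List α} (hw : LC h w) (q : ℕ) : LC h (it h q w) := by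
  obtain ⟨p, js, h1, h2, h3⟩ := hw
  refine ⟨p, js, h1, h2, ?_⟩
  have h4 := rel_shift h3 q
  rw [it_add] at h4
  rw [h4]
  congr 1
  apply List.map_congr_left
  intro j _
  rw [it_add]

theorem Rel.unshift {h : α → List α} {w : List α} {q p : ℕ} (hp : Rel h (it h q w) p) :
    Rel h w (p + q) := by
  obtain ⟨js, h1, h2, h3⟩ := hp
  refine ⟨js.map (· + q), by simpa using h1, ?_, ?_⟩
  · intro j hj
    rw [List.mem_map] at hj
    obtain ⟨i, hi, rfl⟩ := hj
    have := h2 i hi
    omega
  · rw [it_add, h3, List.map_map]
    congr 1
    apply List.map_congr_left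
    intro j _
    simp only [Function.comp]
    rw [it_add]

/-- Size of a system. -/
def Sz [Fintype α] (s : ℕ) (h : α → List α) (w : List α) : Prop :=
  Fintype.card α ≤ s ∧ (∀ a, (h a).length ≤ s) ∧ w.length ≤ s

/-- The morphism with reversed letter images. -/
def rev (h : α → List β) (a : α) : List β := (h a).reverse

/-- `y` is the image of the infinite word `x`. -/
def IsIm (h : α → List β) (x : ℕ → α) (y : ℕ → β) : Prop :=
  ∀ n, ∃ k, app h ((List.range n).map x) = (List.range k).map y

/-- `h` is injective on right infinite words. -/
def InjR (h : α → List β) : Prop :=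
  ∀ x x' : ℕ → α, ∀ y : ℕ → β, IsIm h x y → IsIm h x' y → x = x'

/-- The good morphisms: nonerasing, injective on right infinite and on left infinite words. -/
structure Good (h : α → List β) : Prop where
  ne : ∀ a, h a ≠ []
  injR : InjR h
  injL : InjR (rev h)

/-- Primitive morphisms. -/
def Prim (h : α → List α) : Prop := ∃ K, 0 < K ∧ ∀ a b, b ∈ it h K [a]

/-- All words `h^n(c)` are factors of one periodic word. -/
def Per (h : α → List α) : Prop :=
  ∃ (U : ℕ → α) (q : ℕ), 0 < q ∧ (∀ x, U (x + q) = U x) ∧
    ∀ c n, ∃ x, it h n [c] = (List.range (it h n [c]).length).map (fun i => U (x + i))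

/-- `w` is a factor of some `h^n(c)`. -/
def Legal (h : α → List α) (w : List α) : Prop := ∃ c n, w <:+: it h n [c]

/-- The hypothesis on the core case (computable bound `F`). -/
def CoreBound (F : ℕ → ℕ) : Prop :=
  ∀ (α : Type) [Fintype α] (h : α → List α) (w : List α) (s : ℕ), Sz s h w → Good h → Prim h →
    ¬ Per h → Legal h w → w ≠ [] → LC h w → ∃ p ≤ F s, Rel h w p

/-- The final statement: a bound for all systems. -/
def Bound (F : ℕ → ℕ) : Prop :=
  ∀ (α : Type) [Fintype α] (h : α → List α) (w : List α) (s : ℕ), Sz s h w → LC h w →
    ∃ p ≤ F s, Rel h w p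

end D0L
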